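import Pool.Agent.Helper78.JT.Goals2
import Pool.Agent.Helper16.DT.PA2
import Pool.Agent.Helper8.DT.NPRCPW

/-!
# Project JT, packet PJ12: two estimates for the parameters
-/

set_option autoImplicit false

namespace Pool.Agent.Helper56.JT

open Pool.Agent.Helper78.DT Pool.Agent.Helper78.JT

/-- packet PJ1 -/
theorem pj1 (hT : TljStmt) : Pj1Stmt := by
  intro c e
  refine ⟨64 * (c + 9) ^ 2, fun L hL r hr => ?_⟩
  have hc : 0 < 64 * (c + 9) ^ 2 := by positivity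
  have hL1 : 1 ≤ L := by omega
  have hLr : (0 : ℝ) < (L : ℝ) := by exact_mod_cast hL1
  have hrL : r ≤ L := (((hT 0 e).1 L hL1).2.2.2 r hr).1
  have hX : 0 < L ^ (c + 8) := by positivity
  obtain ⟨-, hP, -⟩ := Pool.Agent.Helper8.DT.npr (L ^ (c + 8)) hX
  have hP' : L ^ (c + 8) ≤ Pj c L := hP
  have hPpos : 0 < Pj c L := lt_of_lt_of_le hX hP'
  have hnat : r * (WW c L ^ 2 * L) * (64 * L ^ c) ≤ Pj c L := by
    have h3 : 64 * (c + 9) ^ 2 ≤ L ^ 4 := hL.trans (Nat.le_self_pow (by norm_num) L)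
    calc r * (WW c L ^ 2 * L) * (64 * L ^ c) ≤ L * (WW c L ^ 2 * L) * (64 * L ^ c) := by gcongr
      _ = (64 * (c + 9) ^ 2) * L ^ (c + 4) := by
          unfold WW
          ring
      _ ≤ L ^ 4 * L ^ (c + 4) := Nat.mul_le_mul_right _ h3
      _ = L ^ (c + 8) := by ring
      _ ≤ Pj c L := hP'
  have hPr : (0 : ℝ) < (Pj c L : ℝ) := by exact_mod_cast hPpos
  have hnat' : (r : ℝ) * ((WW c L : ℝ) ^ 2 * L) * (64 * (L : ℝ) ^ c) ≤ (Pj c L : ℝ) := by
    exact_mod_cast hnat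
  rw [← mul_div_assoc, div_le_div_iff₀ hPr (by positivity), one_mul]
  exact hnat'

/-- packet PJ2 -/
theorem pj2 (hT : TljStmt) : Pj2Stmt := by
  intro c a e β hβ
  obtain ⟨hT1, hT2, -⟩ := hT a e
  obtain ⟨L0, hL0⟩ := hT2 (384 * (c + 9))
  refine ⟨L0 + 1, fun L hL r hr => ?_⟩
  have hL1 : 1 ≤ L := by omega
  have ht := hL0 L (by omega)
  have hrL : r ≤ L := ((hT1 L hL1).2.2.2 r hr).1
  have hlt := (hT1 L hL1).2.1
  set t := tj a e L with htd
  have htp : 1 ≤ t := by omega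
  set W := WW c L with hW
  have hWpos : 0 < W := by
    rw [hW, WW]
    positivity
  have hm : (0 : ℝ) < ((t + 1 : ℕ) : ℝ) := by positivity
  set x : ℝ := 6 * (W : ℝ) / ((t + 1 : ℕ) : ℝ) with hx
  have hWr : (0 : ℝ) < W := Nat.cast_pos.mpr hWpos
  have hxpos : 0 < x := by positivity
  have h1 := Pool.Agent.Helper16.DT.choose_two_pow_le W (t + 1) (Nat.succ_pos t)
  rw [← hx] at h1
  have h2 : 2 ^ β * x ≤ (Kj c a β e L : ℝ) := by
    rw [Kj, ← htd, ← hW, Nat.cast_mul, Nat.cast_pow, Nat.cast_ofNat]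
    refine mul_le_mul_of_nonneg_left ?_ (by positivity)
    rw [hx, div_le_iff₀ hm]
    have h3 := Nat.lt_mul_div_succ (6 * W) (Nat.succ_pos t)
    have h4 : ((6 * W : ℕ) : ℝ) < (((t + 1) * (6 * W / (t + 1) + 1) : ℕ) : ℝ) := Nat.cast_lt.mpr h3
    rw [Nat.cast_mul, Nat.cast_mul, Nat.cast_ofNat] at h4
    linarith
  have h2pos : 0 < 2 ^ β * x := by positivity
  have h3 : (2 ^ β * x) ^ t ≤ (Kj c a β e L : ℝ) ^ t := pow_le_pow_left₀ h2pos.le h2 t
  have h4 : ((W.choose (t + 1) : ℕ) : ℝ) * 2 ^ (t + 1) / (Kj c a β e L : ℝ) ^ t ≤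
      x / 2 ^ (β * t) := by
    calc ((W.choose (t + 1) : ℕ) : ℝ) * 2 ^ (t + 1) / (Kj c a β e L : ℝ) ^ t
        ≤ x ^ (t + 1) / (2 ^ β * x) ^ t :=
          div_le_div₀ (by positivity) h1 (pow_pos h2pos t) h3
      _ = x / 2 ^ (β * t) := by
          rw [mul_pow, pow_succ, ← pow_mul]
          field_simp
  have h5 : x ≤ 6 * W := by
    rw [hx]
    apply div_le_self (by positivity)
    have : (1 : ℕ) ≤ t + 1 := by omega
    exact_mod_cast this
  have hkey : r * (6 * W * (64 * L ^ c)) ≤ 2 ^ (β * t) := by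
    have e1 : L * (6 * W * (64 * L ^ c)) = 384 * (c + 9) * L ^ (c + 2) := by
      rw [hW, WW]
      ring
    have e2 : 384 * (c + 9) ≤ 2 ^ t := ht.trans Nat.lt_two_pow_self.le
    have e3 : L ^ (c + 2) ≤ 2 ^ (bb a e * (t + 1) * (c + 2)) := by
      rw [pow_mul]
      exact Nat.pow_le_pow_left hlt.le _
    refine (Nat.mul_le_mul_right _ hrL).trans ?_
    rw [e1]
    refine (Nat.mul_le_mul e2 e3).trans ?_
    rw [← pow_add]
    refine Nat.pow_le_pow_right (by norm_num) ?_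
    rw [hβ]
    have e4 : bb a e * (t + 1) * (c + 2) ≤ bb a e * (2 * t) * (c + 2) := by
      gcongr
      omega
    calc t + bb a e * (t + 1) * (c + 2) ≤ t + bb a e * (2 * t) * (c + 2) := by omega
      _ = (2 * bb a e * (c + 2) + 1) * t := by ring
  have hkey' : (r : ℝ) * (6 * (W : ℝ) * (64 * (L : ℝ) ^ c)) ≤ 2 ^ (β * t) := by
    exact_mod_cast hkey
  have hLr : (0 : ℝ) < L := by exact_mod_cast hL1
  refine (mul_le_mul_of_nonneg_left h4 (Nat.cast_nonneg r)).trans ?_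
  rw [← mul_div_assoc, div_le_div_iff₀ (by positivity) (by positivity)]
  calc (r : ℝ) * x * (64 * (L : ℝ) ^ c) = r * (x * (64 * (L : ℝ) ^ c)) := by ring
    _ ≤ r * (6 * W * (64 * (L : ℝ) ^ c)) := by gcongr
    _ ≤ 2 ^ (β * t) := hkey'
    _ = 1 * 2 ^ (β * t) := (one_mul _).symm

end Pool.Agent.Helper56.JT
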